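import Pool.Agent.Helper39.HR.Stmts
import Pool.Agent.Helper5.BL.LLL

/-!
# Rounding: independent random classes, local lemma, greedy colouring along `ψ`
-/

namespace Pool.Agent.Helper84.HR

open Finset
open scoped Classical
open Pool.Agent.Helper39.HR
open Pool.Agent.Helper50.BL (IsW Ex Pr Dep Ex_mono Ex_mul_left Ex_prod Ex_sum Ex_one st_LLL
  Pr_nonneg Pr_mono)

noncomputable section

/-- greedy colouring inside the classes of `w` -/
theorem greedy {V : Type} [Fintype V] (G : SimpleGraph V) {K M : ℕ} (w : V → Fin K)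
    (ψ : Fin K → V → ℝ)
    (h : ∀ x, #(univ.filter (fun y => G.Adj x y ∧ w y = w x ∧ ψ (w x) x ≤ ψ (w x) y)) ≤ M)
    (T : Finset V) :
    ∃ c : V → Fin (M + 1), ∀ x ∈ T, ∀ y ∈ T, G.Adj x y → w x = w y → c x ≠ c y := by
  induction' hn : #T with n ih generalizing T
  · refine ⟨fun _ => 0, fun x hx => ?_⟩
    rw [Finset.card_eq_zero] at hn
    simp [hn] at hx
  · have hT : T.Nonempty := by
      rw [← Finset.card_pos, hn]; omega
    obtain ⟨x, hxT, hx⟩ := T.exists_min_image (fun x => ψ (w x) x) hT
    obtain ⟨c, hc⟩ := ih (T.erase x) (by rw [Finset.card_erase_of_mem hxT, hn]; rfl)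
    have hlt : #((univ.filter
        (fun y => G.Adj x y ∧ w y = w x ∧ ψ (w x) x ≤ ψ (w x) y)).image c)
        < #(univ : Finset (Fin (M + 1))) := by
      rw [Finset.card_univ, Fintype.card_fin]
      exact Nat.lt_succ_of_le (Finset.card_image_le.trans (h x))
    obtain ⟨a, _, ha⟩ := Finset.exists_mem_notMem_of_card_lt_card hlt
    have key : ∀ y ∈ T, G.Adj x y → w x = w y → a ≠ c y := by
      intro y hyT hadj hw hcon
      apply ha
      refine Finset.mem_image.2 ⟨y, ?_, hcon.symm⟩
      refine Finset.mem_filter.2 ⟨Finset.mem_univ _, hadj, hw.symm, ?_⟩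
      have := hx y hyT
      rw [← hw] at this
      exact this
    refine ⟨fun y => if y = x then a else c y, ?_⟩
    intro y hy z hz hadj hw
    by_cases hyx : y = x
    · subst hyx
      have hzy : z ≠ y := fun h => (G.ne_of_adj hadj) h.symm
      simp only [if_true, hzy, if_false]
      exact key z hz hadj hw
    · by_cases hzx : z = x
      · subst hzx
        simp only [hyx, if_false, if_true]
        exact (key y hy hadj.symm hw.symm).symm
      · simp only [hyx, hzx, if_false]
        exact hc y (Finset.mem_erase.2 ⟨hyx, hy⟩) z (Finset.mem_erase.2 ⟨hzx, hz⟩) hadj hw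

theorem color_of_good {V : Type} [Fintype V] (G : SimpleGraph V) {K M : ℕ} (w : V → Fin K)
    (ψ : Fin K → V → ℝ)
    (h : ∀ x, #(univ.filter (fun y => G.Adj x y ∧ w y = w x ∧ ψ (w x) x ≤ ψ (w x) y)) ≤ M) :
    G.Colorable (K * (M + 1)) := by
  obtain ⟨c, hc⟩ := greedy G w ψ h univ
  have C : G.Coloring (Fin K × Fin (M + 1)) :=
    SimpleGraph.Coloring.mk (fun x => (w x, c x)) (by
      intro x y hadj heq
      have h1 : w x = w y := congrArg Prod.fst heq
      have h2 : c x = c y := congrArg Prod.snd heq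
      exact hc x (mem_univ _) y (mem_univ _) hadj h1 h2)
  have := C.colorable
  simpa [Fintype.card_prod, Fintype.card_fin] using this

/-- union bound over `Fin K` -/
theorem pr_union {V α ι : Type} [Fintype V] [DecidableEq V] [Fintype α] {mu : V → α → ℝ}
    (hmu : IsW mu) [Fintype ι] (A : ι → (V → α) → Prop) :
    Pr mu (fun w => ∃ i, A i w) ≤ ∑ i, Pr mu (A i) := by
  unfold Pr
  rw [← Ex_sum]
  refine Ex_mono hmu fun w => ?_
  by_cases hw : ∃ i, A i w
  · rw [if_pos hw]
    obtain ⟨i, hi⟩ := hw
    have h1 : (if A i w then (1 : ℝ) else 0) ≤ ∑ j, (if A j w then (1 : ℝ) else 0) :=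
      single_le_sum (f := fun j => if A j w then (1 : ℝ) else 0)
        (fun j _ => by
          show (0 : ℝ) ≤ if A j w then 1 else 0
          split_ifs <;> norm_num) (mem_univ i)
    rwa [if_pos hi] at h1
  · rw [if_neg hw]
    refine sum_nonneg fun j _ => ?_
    split_ifs <;> norm_num

/-- Chernoff bound for the number of `y` in `S` of colour `i` -/
theorem pr_count {V : Type} [Fintype V] [DecidableEq V] {K : ℕ} {f : Fin K → V → ℝ}
    (hmu : IsW (fun (x : V) (i : Fin K) => f i x)) (S : Finset V) (i : Fin K) {M : ℕ} {R : ℝ}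
    (hM : 3 * R ≤ M) (hS : ∑ y ∈ S, f i y ≤ R) :
    Pr (fun (x : V) (i : Fin K) => f i x) (fun w => M < #(S.filter (fun y => w y = i)))
      ≤ Real.exp (-R) := by
  have hR : 0 ≤ R := le_trans (sum_nonneg fun y _ => hmu.1 y i) hS
  have h1 : Pr (fun (x : V) (i : Fin K) => f i x) (fun w => M < #(S.filter (fun y => w y = i)))
      ≤ Ex (fun (x : V) (i : Fin K) => f i x)
        (fun w => Real.exp (-(M : ℝ)) * ∏ y, (if y ∈ S ∧ w y = i then Real.exp 1 else 1)) := by
    refine Ex_mono hmu fun w => ?_
    have h2 : ∏ y, (if y ∈ S ∧ w y = i then Real.exp 1 else 1)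
        = Real.exp (#(S.filter (fun y => w y = i)) : ℝ) := by
      rw [Finset.prod_ite, Finset.prod_const_one, mul_one, Finset.prod_const, ← Real.exp_nat_mul,
        mul_one]
      congr 3
      ext y
      simp
    rw [h2]
    by_cases hw : M < #(S.filter (fun y => w y = i))
    · rw [if_pos hw, ← Real.exp_add]
      refine Real.one_le_exp ?_
      have : (M : ℝ) ≤ (#(S.filter (fun y => w y = i)) : ℝ) := by exact_mod_cast hw.le
      linarith
    · rw [if_neg hw]
      positivity
  rw [Ex_mul_left] at h1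
  have h3 : Ex (fun (x : V) (i : Fin K) => f i x)
      (fun w => ∏ y, (if y ∈ S ∧ w y = i then Real.exp 1 else 1))
      = ∏ y, ∑ a, f a y * (if y ∈ S ∧ a = i then Real.exp 1 else 1) :=
    Ex_prod (mu := fun (x : V) (i : Fin K) => f i x)
      (fun y a => if y ∈ S ∧ a = i then Real.exp 1 else 1)
  rw [h3] at h1
  have hE : Real.exp 1 - 1 ≤ 2 := by
    have := Real.exp_one_lt_d9
    linarith
  have h4 : ∀ y, ∑ a, f a y * (if y ∈ S ∧ a = i then Real.exp 1 else 1)
      ≤ Real.exp (if y ∈ S then 2 * f i y else 0) := by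
    intro y
    have hs : ∑ a, f a y = 1 := hmu.2 y
    by_cases hy : y ∈ S
    · have h5 : ∑ a, f a y * (if y ∈ S ∧ a = i then Real.exp 1 else 1)
          = 1 + f i y * (Real.exp 1 - 1) := by
        have h6 : ∀ a, f a y * (if y ∈ S ∧ a = i then Real.exp 1 else 1)
            = f a y + (if a = i then f i y * (Real.exp 1 - 1) else 0) := by
          intro a
          by_cases ha : a = i
          · subst ha
            simp only [hy, true_and, if_true]
            ring
          · simp [ha]
        rw [sum_congr rfl fun a _ => h6 a, sum_add_distrib, hs]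
        simp
      rw [h5, if_pos hy]
      have h7 := Real.add_one_le_exp (2 * f i y)
      have h8 : f i y * (Real.exp 1 - 1) ≤ f i y * 2 :=
        mul_le_mul_of_nonneg_left hE (hmu.1 y i)
      linarith
    · simp only [hy, false_and, if_false, mul_one, Real.exp_zero]
      exact hs.le
  have h5 : ∏ y, ∑ a, f a y * (if y ∈ S ∧ a = i then Real.exp 1 else 1) ≤ Real.exp (2 * R) := by
    calc ∏ y, ∑ a, f a y * (if y ∈ S ∧ a = i then Real.exp 1 else 1)
        ≤ ∏ y, Real.exp (if y ∈ S then 2 * f i y else 0) := by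
          refine prod_le_prod (fun y _ => sum_nonneg fun a _ => mul_nonneg (hmu.1 y a) ?_)
            fun y _ => h4 y
          split_ifs <;> positivity
      _ = Real.exp (∑ y ∈ S, 2 * f i y) := by
          rw [← Real.exp_sum]
          congr 1
          rw [sum_ite_mem]
          simp
      _ ≤ Real.exp (2 * R) := by
          rw [Real.exp_le_exp, ← mul_sum]
          linarith
  refine h1.trans ?_
  calc Real.exp (-(M : ℝ)) * ∏ y, ∑ a, f a y * (if y ∈ S ∧ a = i then Real.exp 1 else 1)
      ≤ Real.exp (-(M : ℝ)) * Real.exp (2 * R) :=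
        mul_le_mul_of_nonneg_left h5 (Real.exp_nonneg _)
    _ = Real.exp (-(M : ℝ) + 2 * R) := (Real.exp_add _ _).symm
    _ ≤ Real.exp (-R) := by
        rw [Real.exp_le_exp]
        linarith

theorem st_round : ST_ROUND := by
  intro V _ G K M d R f hdeg hd hR hM hK hf0 hf1 hsup
  have hmu : IsW (fun (x : V) (i : Fin K) => f i x) := ⟨fun x i => hf0 i x, fun x => hf1 x⟩
  choose ψ hψ using hsup
  have hψ0 : ∀ i x, 0 < ψ i x := fun i => (hψ i).1
  have hψ1 : ∀ i x, ∑ y, ad G x y * (f i y * ψ i y) ≤ R * ψ i x := fun i => (hψ i).2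
  -- degrees
  have hN : ∀ x, (#(univ.filter (fun y => G.Adj x y)) : ℝ) ≤ d := by
    intro x
    have h1 := hdeg x
    have h2 : ∑ y, ad G x y = (#(univ.filter (fun y => G.Adj x y)) : ℝ) := by
      unfold ad
      rw [Finset.sum_ite]
      simp
    rwa [h2] at h1
  -- the mean
  have hmean : ∀ i x, ∑ y ∈ univ.filter (fun y => G.Adj x y ∧ ψ i x ≤ ψ i y), f i y ≤ R := by
    intro i x
    have h1 : (∑ y ∈ univ.filter (fun y => G.Adj x y ∧ ψ i x ≤ ψ i y), f i y) * ψ i x
        ≤ R * ψ i x := by
      refine le_trans ?_ (hψ1 i x)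
      rw [sum_mul]
      refine le_trans (sum_le_sum (g := fun y => ad G x y * (f i y * ψ i y)) ?_) ?_
      · intro y hy
        have hy' := (mem_filter.1 hy).2
        have : ad G x y = 1 := by
          unfold ad
          rw [if_pos hy'.1]
        rw [this, one_mul]
        exact mul_le_mul_of_nonneg_left hy'.2 (hf0 i y)
      · refine sum_le_sum_of_subset_of_nonneg (subset_univ _) fun y _ _ => ?_
        refine mul_nonneg ?_ (mul_nonneg (hf0 i y) (hψ0 i y).le)
        unfold ad
        split_ifs <;> norm_num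
    exact le_of_mul_le_mul_right h1 (hψ0 i x)
  -- bad events
  set Bad : V → (V → Fin K) → Prop := fun x w =>
    ∃ i, M < #((univ.filter (fun y => G.Adj x y ∧ ψ i x ≤ ψ i y)).filter (fun y => w y = i))
    with hBad
  set X : V → Finset V := fun x => univ.filter (fun y => G.Adj x y) with hX
  have hd0 : 0 < d := lt_of_lt_of_le one_pos hd
  have hpr : ∀ x, Pr (fun (x : V) (i : Fin K) => f i x) (Bad x) ≤ K * Real.exp (-R) := by
    intro x
    refine (pr_union hmu _).trans ?_
    calc ∑ i, Pr (fun (x : V) (i : Fin K) => f i x) (fun w =>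
          M < #((univ.filter (fun y => G.Adj x y ∧ ψ i x ≤ ψ i y)).filter (fun y => w y = i)))
        ≤ ∑ _i : Fin K, Real.exp (-R) := sum_le_sum fun i _ => pr_count hmu _ i hM (hmean i x)
      _ = K * Real.exp (-R) := by
          rw [sum_const, card_univ, Fintype.card_fin, nsmul_eq_mul]
  suffices hex : ∃ w, ∀ x, ¬ Bad x w by
    obtain ⟨w, hw⟩ := hex
    refine color_of_good G w ψ fun x => ?_
    have h1 := hw x
    simp only [hBad, not_exists, not_lt] at h1
    have h2 := h1 (w x)
    refine le_trans (le_of_eq ?_) h2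
    congr 1
    ext y
    simp only [mem_filter, mem_univ, true_and]
    tauto
  refine st_LLL V (Fin K) (fun (x : V) (i : Fin K) => f i x) hmu V X Bad
    (fun _ => 1 / (2 * d ^ 2)) (1 / d) ?_ ?_ ?_ ?_ ?_ ?_
  · intro x w w' hww
    have h1 : ∀ i, (univ.filter (fun y => G.Adj x y ∧ ψ i x ≤ ψ i y)).filter (fun y => w y = i)
        = (univ.filter (fun y => G.Adj x y ∧ ψ i x ≤ ψ i y)).filter (fun y => w' y = i) := by
      intro i
      refine filter_congr fun y hy => ?_
      have : y ∈ X x := by
        simp only [hX, mem_filter, mem_univ, true_and]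
        exact (mem_filter.1 hy).2.1
      rw [hww y this]
    simp only [hBad, h1]
  · intro _
    positivity
  · intro _
    show 1 / (2 * d ^ 2) ≤ 1 / 2
    apply one_div_le_one_div_of_le (by norm_num)
    nlinarith
  · positivity
  · intro x
    refine (hpr x).trans ?_
    show K * Real.exp (-R) ≤ 1 / (2 * d ^ 2) * Real.exp (-(1 / d * (#(X x) : ℝ)))
    have h1 : Real.exp (-1) ≤ Real.exp (-(1 / d * (#(X x) : ℝ))) := by
      rw [Real.exp_le_exp]
      have h2 : 1 / d * (#(X x) : ℝ) ≤ 1 := by
        rw [one_div, inv_mul_le_iff₀ hd0, mul_one]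
        exact hN x
      linarith
    have h3 : (1 : ℝ) / 3 ≤ Real.exp (-1) := by
      rw [Real.exp_neg, one_div]
      apply inv_anti₀ (Real.exp_pos _)
      have := Real.exp_one_lt_d9
      linarith
    have h4 : K * Real.exp (-R) ≤ 1 / (6 * d ^ 2) := by
      rw [le_div_iff₀ (by positivity)]
      exact hK
    have h5 : 1 / (6 * d ^ 2) = 1 / (2 * d ^ 2) * (1 / 3) := by
      field_simp
      norm_num
    rw [h5] at h4
    refine h4.trans (mul_le_mul_of_nonneg_left (h3.trans h1) (by positivity))
  · intro v F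
    show ∑ i ∈ F.filter (fun i => v ∈ X i), 1 / (2 * d ^ 2) ≤ 1 / d / 2
    rw [sum_const, nsmul_eq_mul]
    have h1 : (#(F.filter (fun i => v ∈ X i)) : ℝ) ≤ d := by
      refine le_trans ?_ (hN v)
      norm_cast
      refine card_le_card fun y hy => ?_
      have h2 := (mem_filter.1 hy).2
      simp only [hX, mem_filter, mem_univ, true_and] at h2 ⊢
      exact h2.symm
    calc (#(F.filter (fun i => v ∈ X i)) : ℝ) * (1 / (2 * d ^ 2)) ≤ d * (1 / (2 * d ^ 2)) :=
          mul_le_mul_of_nonneg_right h1 (by positivity)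
      _ = 1 / d / 2 := by
          field_simp

end

end Pool.Agent.Helper84.HR
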