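import Pool.Agent.Helper16.HR.Stmts

set_option autoImplicit false

namespace Pool.Helper16.HR

open Finset

theorem cnt_one (q M : ℕ) (hM : 2 ≤ M) :
    gam q M * (1 / del M) ^ (q ^ 2) = 1 / (M : ℝ) ^ (q + 4) := by
  have h0 : (M : ℝ) ≠ 0 := by positivity
  have h0' : (M : ℝ) ^ (3 * q ^ 2) ≠ 0 := pow_ne_zero _ h0
  unfold gam del Gq
  rw [one_div_one_div, ← pow_mul, show 3 * q ^ 2 + q + 4 = 3 * q ^ 2 + (q + 4) by ring, pow_add]
  field_simp

theorem cnt_two (q M : ℕ) (hM : 2 ≤ M) :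
    eta q M * (1 / del M) ^ (q ^ 2 + q) = 1 / (M : ℝ) ^ (q + 4) := by
  have h0 : (M : ℝ) ≠ 0 := by positivity
  have h0' : (M : ℝ) ^ (3 * (q ^ 2 + q)) ≠ 0 := pow_ne_zero _ h0
  unfold eta del Eq'
  rw [one_div_one_div, ← pow_mul,
    show 3 * q ^ 2 + 4 * q + 4 = 3 * (q ^ 2 + q) + (q + 4) by ring, pow_add]
  field_simp

theorem cnt_mono (k M N : ℕ) (hM : 2 ≤ M) (hMN : M ≤ N) :
    1 / (N : ℝ) ^ k ≤ 1 / (M : ℝ) ^ k := by
  have h0 : (0 : ℝ) < (M : ℝ) := by positivity
  apply one_div_le_one_div_of_le (pow_pos h0 k)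
  exact pow_le_pow_left₀ h0.le (by exact_mod_cast hMN) k

theorem st_CNT (hCLM : ST_CLM) (hCB : ST_CB) : ST_CNT := by
  intro I V _ _ _ _ L rk hL c hc Ms x0 D hanti h2 hD hdel hsum hdisc
  have hdelpos : ∀ r, 0 < del (Ms r) := by
    intro r
    have := h2 r
    unfold del
    positivity
  have hdel1 : ∀ r, del (Ms r) ≤ 1 := by
    intro r
    have h3 : (1 : ℝ) ≤ (Ms r : ℝ) := by
      have := h2 r
      exact_mod_cast (by omega : 1 ≤ Ms r)
    unfold del
    rw [div_le_one (by positivity)]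
    exact one_le_pow₀ h3
  have hempty : ce L c ∅ (ind c ∅ (c ∅ x0)) x0 = 1 := by
    have h3 : ∀ y ∈ cls L c ∅ x0, ind c ∅ (c ∅ x0) y = 1 := by
      intro y _
      unfold ind
      rw [if_pos]
      exact hc ∅ hL.empty y x0 (by simp)
    unfold ce
    rw [sum_congr rfl h3, sum_const, nsmul_eq_mul, mul_one,
      div_self (ne_of_gt (cls_card_pos x0))]
  have key := hCLM I V L rk hL c hc x0 D (fun T => ce L c T (ind c T (c T x0)) x0)
    (fun r => del (Ms r)) (fun r => gam L.card (Ms r)) (eta L.card (Ms 0)) hD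
    (fun T hT => ⟨hdel T hT, ce_le_one (ind_le_one _) x0⟩) hempty
    (fun r => ⟨hdelpos r, hdel1 r, by unfold gam; positivity⟩)
    (fun r s hrs => by
      have := cnt_mono 3 (Ms s) (Ms r) (h2 s) (hanti r s hrs)
      simpa [del] using this)
    (fun r s hrs => by
      rw [cnt_one _ _ (h2 r), cnt_one _ _ (h2 s)]
      exact cnt_mono _ (Ms s) (Ms r) (h2 s) (hanti r s hrs))
    (by unfold eta; positivity)
    (fun T hT => hCB I V L c T x0 (fun x => D T x - ce L c T (ind c T (c T x0)) x0)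
      (gam L.card (Ms (rk T))) (by unfold gam; positivity) (hsum T hT))
    hdisc
    (fun s => by
      rw [cnt_one _ _ (h2 s), cnt_two _ _ (h2 0)]
      have h3 := cnt_mono (L.card + 4) 2 (Ms s) le_rfl (h2 s)
      have h4 := cnt_mono (L.card + 4) 2 (Ms 0) le_rfl (h2 0)
      have h5 : (0 : ℝ) < 2 ^ (L.card + 1) := by positivity
      have h6 : (2 : ℝ) ^ (L.card + 1) * (1 / ((2 : ℕ) : ℝ) ^ (L.card + 4)) = 1 / 8 := by
        have h7 : (2 : ℝ) ^ (L.card + 1) ≠ 0 := by positivity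
        push_cast
        rw [show L.card + 4 = (L.card + 1) + 3 from by ring, pow_add _ (L.card + 1) 3]
        rw [one_div, mul_inv, ← mul_assoc, mul_inv_cancel₀ h7]
        norm_num
      have h8 := mul_le_mul_of_nonneg_left (add_le_add h3 h4) h5.le
      rw [mul_add (2 ^ (L.card + 1)) (1 / ((2 : ℕ) : ℝ) ^ (L.card + 4)), h6] at h8
      linarith)
  refine le_trans ?_ key
  have h9 : del (Ms 0) ^ L.card ≤ ∏ T ∈ L, ce L c T (ind c T (c T x0)) x0 := by
    rw [← prod_const]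
    refine prod_le_prod (fun T _ => (hdelpos 0).le) fun T hT => ?_
    refine le_trans ?_ (hdel T hT)
    have := cnt_mono 3 (Ms (rk T)) (Ms 0) (h2 _) (hanti 0 (rk T) (Nat.zero_le _))
    simpa [del] using this
  linarith

end Pool.Helper16.HR
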